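import Mathlib

/-!
# MP_db54ba57_co: inserting interior empty rows can turn `sat(m₀, n, P) = O(1)` into `≥ n`

The pattern is the permutation matrix `P` of `2413`.
-/

namespace Pool.Agent.Results.MP_db54ba57_co.Disproof

/-- 0-1 matrices with `m` rows and `n` columns -/
abbrev Mat (m n : ℕ) := Fin m → Fin n → Bool

/-- `M` contains `P`: some submatrix of `M` (rows `f`, columns `g`, in their order) has a 1 wherever
`P` has a 1. -/
def Contains {m n k l : ℕ} (M : Mat m n) (P : Mat k l) : Prop :=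
  ∃ (f : Fin k → Fin m) (g : Fin l → Fin n), StrictMono f ∧ StrictMono g ∧
    ∀ i j, P i j = true → M (f i) (g j) = true

/-- the number of 1-entries -/
def weight {m n : ℕ} (M : Mat m n) : ℕ :=
  (Finset.univ.filter fun x : Fin m × Fin n => M x.1 x.2 = true).card

/-- the matrix `M` with the entry `(i, j)` changed to 1 -/
def add {m n : ℕ} (M : Mat m n) (i : Fin m) (j : Fin n) : Mat m n :=
  fun a b => if a = i ∧ b = j then true else M a b

/-- `M` is `P`-saturated -/
def Saturated {m n k l : ℕ} (M : Mat m n) (P : Mat k l) : Prop :=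
  ¬ Contains M P ∧ ∀ i j, M i j = false → Contains (add M i j) P

/-- the minimum weight of an `m × n` `P`-saturated matrix -/
noncomputable def sat {k l : ℕ} (m n : ℕ) (P : Mat k l) : ℕ :=
  sInf {w | ∃ M : Mat m n, Saturated M P ∧ weight M = w}

/-- a pattern: a 0-1 matrix with at least one 1-entry -/
def IsPattern {k l : ℕ} (P : Mat k l) : Prop := ∃ i j, P i j = true

/-- `P'` is obtained from `P` by inserting interior empty rows and columns: `f`, `g` give the
positions of the old rows and columns, the others are empty and lie strictly between old ones. -/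
def IsInsertion {k l k' l' : ℕ} (P : Mat k l) (P' : Mat k' l') : Prop :=
  ∃ (f : Fin k → Fin k') (g : Fin l → Fin l'), StrictMono f ∧ StrictMono g ∧
    (∀ i j, P' (f i) (g j) = P i j) ∧
    (∀ i', i' ∉ Set.range f → (∀ j', P' i' j' = false) ∧ (∃ i, f i < i') ∧ ∃ i, i' < f i) ∧
    (∀ j', j' ∉ Set.range g → (∀ i', P' i' j' = false) ∧ (∃ j, g j < j') ∧ ∃ j, j' < g j)

/-- the permutation matrix of `2413` -/
def P : Mat 4 4 := ![![false, true, false, false], ![false, false, false, true],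
  ![true, false, false, false], ![false, false, true, false]]

/-- the matrix `P` with `t` empty rows inserted between its first and its second row -/
def P' (t : ℕ) : Mat (t + 4) 4 := fun i j =>
  if (i : ℕ) = 0 then P 0 j else if h : (i : ℕ) ≤ t then false
  else P ⟨i - t, by have := i.2; omega⟩ j

theorem isInsertion (t : ℕ) : IsInsertion P (P' t) := by
  refine ⟨fun i => ⟨if (i : ℕ) = 0 then 0 else i + t, ?_⟩, id, ?_, strictMono_id, ?_, ?_, ?_⟩
  · have := i.2; split_ifs <;> omega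
  · intro a b hab
    rw [Fin.lt_def] at hab ⊢
    simp only
    split_ifs <;> omega
  · intro i j
    have hi := i.2
    unfold P'
    simp only [id]
    by_cases h : (i : ℕ) = 0
    · have : i = 0 := Fin.ext h
      simp [this]
    · simp only [h, if_false]
      rw [if_neg (by omega), dif_neg (by omega)]
      congr 1
      apply Fin.ext
      simp
  · intro i' hi'
    have h0 : (i' : ℕ) ≠ 0 := by
      intro h
      exact hi' ⟨0, Fin.ext (by simp [h])⟩
    have h1 : (i' : ℕ) ≤ t := by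
      by_contra hcon
      refine hi' ⟨⟨i' - t, by have := i'.2; omega⟩, Fin.ext ?_⟩
      show (if (i' : ℕ) - t = 0 then 0 else (i' : ℕ) - t + t) = i'
      split_ifs <;> omega
    refine ⟨fun j' => ?_, ⟨0, ?_⟩, ⟨1, ?_⟩⟩
    · unfold P'
      rw [if_neg h0, dif_pos h1]
    · rw [Fin.lt_def]
      show 0 < (i' : ℕ)
      omega
    · rw [Fin.lt_def]
      show (i' : ℕ) < 1 + t
      omega
  · intro j' hj'
    exact absurd ⟨j', rfl⟩ hj'

theorem le_weight {m n : ℕ} {M M' : Mat m n} (h : ∀ i j, M i j = true → M' i j = true) :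
    weight M ≤ weight M' := by
  apply Finset.card_le_card
  intro x hx
  rw [Finset.mem_filter] at hx ⊢
  exact ⟨hx.1, h _ _ hx.2⟩

theorem weight_add {m n : ℕ} {M : Mat m n} {i : Fin m} {j : Fin n} (h : M i j = false) :
    weight M < weight (add M i j) := by
  apply Finset.card_lt_card
  rw [Finset.ssubset_iff_of_subset]
  · refine ⟨(i, j), ?_, ?_⟩
    · rw [Finset.mem_filter]; simp [add]
    · rw [Finset.mem_filter]; simp [h]
  · intro x hx
    rw [Finset.mem_filter] at hx ⊢
    refine ⟨hx.1, ?_⟩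
    unfold add
    split_ifs
    · rfl
    · exact hx.2

/-- every avoiding matrix can be completed to a saturated one -/
theorem exists_saturated {m n k l : ℕ} (Q : Mat k l) (M0 : Mat m n) (h0 : ¬ Contains M0 Q) :
    ∃ M : Mat m n, Saturated M Q ∧ ∀ i j, M0 i j = true → M i j = true := by
  classical
  let S : Finset (Mat m n) := Finset.univ.filter fun M =>
    ¬ Contains M Q ∧ ∀ i j, M0 i j = true → M i j = true
  have hS : S.Nonempty := ⟨M0, by simp [S, h0]⟩
  obtain ⟨M, hM, hmax⟩ := Finset.exists_max_image S weight hS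
  rw [Finset.mem_filter] at hM
  refine ⟨M, ⟨hM.2.1, fun i j hij => ?_⟩, hM.2.2⟩
  by_contra hcon
  have h1 : add M i j ∈ S := by
    rw [Finset.mem_filter]
    refine ⟨Finset.mem_univ _, hcon, fun a b hab => ?_⟩
    unfold add
    split_ifs
    · rfl
    · exact hM.2.2 a b hab
  have h2 := hmax _ h1
  have h3 := weight_add hij
  omega

theorem not_contains_zero {m n k l : ℕ} {Q : Mat k l} (hQ : IsPattern Q) :
    ¬ Contains (fun (_ : Fin m) (_ : Fin n) => false) Q := by
  rintro ⟨f, g, -, -, h⟩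
  obtain ⟨i, j, hij⟩ := hQ
  simpa using h i j hij

theorem sat_le {m n k l : ℕ} {Q : Mat k l} {M : Mat m n} (h : Saturated M Q) :
    sat m n Q ≤ weight M := Nat.sInf_le ⟨M, h, rfl⟩

theorem exists_sat {m n k l : ℕ} {Q : Mat k l} (hQ : IsPattern Q) :
    ∃ M : Mat m n, Saturated M Q ∧ weight M = sat m n Q := by
  obtain ⟨M, hM, -⟩ := exists_saturated Q (fun (_ : Fin m) (_ : Fin n) => false)
    (not_contains_zero hQ)
  exact Nat.sInf_mem (s := {w | ∃ M : Mat m n, Saturated M Q ∧ weight M = w}) ⟨_, M, hM, rfl⟩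

theorem isPattern (t : ℕ) : IsPattern (P' t) := ⟨0, 1, by simp [P', P]⟩

/-- lower bound for the stretched pattern: the row with number `t + 1` is full -/
theorem lower {m0 t : ℕ} (h1 : t + 4 ≤ m0) (h2 : m0 < 2 * t + 4) (n : ℕ) :
    n ≤ sat m0 n (P' t) := by
  obtain ⟨M, hM, hw⟩ := exists_sat (m := m0) (n := n) (isPattern t)
  rw [← hw]
  have hfull : ∀ j, M ⟨t, by omega⟩ j = true := by
    intro j
    by_contra hcon
    rw [Bool.not_eq_true] at hcon
    obtain ⟨f, g, hf, hg, hfg⟩ := hM.2 _ j hcon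
    apply hM.1
    refine ⟨f, g, hf, hg, fun a b hab => ?_⟩
    have h3 := hfg a b hab
    have hne : f a ≠ ⟨t, by omega⟩ := by
      intro hcon2
      have hcon3 : (f a : ℕ) = t := by rw [hcon2]
      have hlow : ∀ x : ℕ, ∀ hx : x < t + 4, x ≤ f ⟨x, hx⟩ := by
        intro x
        induction x with
        | zero => intro _; exact Nat.zero_le _
        | succ x ih =>
          intro hx
          have e1 := ih (by omega)
          have e2 := hf (show (⟨x, by omega⟩ : Fin (t + 4)) < ⟨x + 1, hx⟩ by simp [Fin.lt_def])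
          rw [Fin.lt_def] at e2
          omega
      have hup : ∀ x : ℕ, ∀ hx : x < t + 4, (f 0 : ℕ) + x ≤ f ⟨x, hx⟩ := by
        intro x
        induction x with
        | zero => intro _; exact le_rfl
        | succ x ih =>
          intro hx
          have e1 := ih (by omega)
          have e2 := hf (show (⟨x, by omega⟩ : Fin (t + 4)) < ⟨x + 1, hx⟩ by simp [Fin.lt_def])
          rw [Fin.lt_def] at e2
          omega
      unfold P' at hab
      split_ifs at hab with q1 q2
      · have ha : a = 0 := Fin.ext q1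
        have e1 := hup (t + 3) (by omega)
        have e2 := (f ⟨t + 3, by omega⟩).2
        rw [ha] at hcon3
        omega
      · have e1 := hlow a a.2
        have e2 : (⟨(a : ℕ), a.2⟩ : Fin (t + 4)) = a := rfl
        rw [e2] at e1
        omega
    unfold add at h3
    rw [if_neg (fun h => hne h.1)] at h3
    exact h3
  have hcard : (Finset.univ.image fun j : Fin n => ((⟨t, by omega⟩ : Fin m0), j)).card = n := by
    rw [Finset.card_image_of_injective]
    · simp
    · intro a b hab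
      simpa using hab
  calc n = (Finset.univ.image fun j : Fin n => ((⟨t, by omega⟩ : Fin m0), j)).card := hcard.symm
    _ ≤ weight M := by
        apply Finset.card_le_card
        intro x hx
        rw [Finset.mem_image] at hx
        obtain ⟨j, -, rfl⟩ := hx
        rw [Finset.mem_filter]
        exact ⟨Finset.mem_univ _, hfull j⟩

/-- the witness -/
def W : Mat 7 5 := ![![false, false, false, false, false], ![true, true, false, true, true],
  ![true, true, false, true, false], ![true, true, false, true, false],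
  ![true, true, false, true, true], ![false, true, false, true, true],
  ![true, true, false, true, true]]

theorem W_avoids : ∀ r0 r1 : Fin 7, r0 < r1 → ∀ r2, r1 < r2 → ∀ r3, r2 < r3 →
    ∀ c0 c1 : Fin 5, c0 < c1 → ∀ c2, c1 < c2 → ∀ c3, c2 < c3 →
    ¬ (W r0 c1 = true ∧ W r1 c3 = true ∧ W r2 c0 = true ∧ W r3 c2 = true) := by
  decide +kernel

theorem W_creates : ∀ r : Fin 7, ∃ r0 r1 : Fin 7, r0 < r1 ∧ ∃ r2, r1 < r2 ∧ ∃ r3, r2 < r3 ∧
    ∃ c0 c1 : Fin 5, c0 < c1 ∧ ∃ c2, c1 < c2 ∧ ∃ c3, c2 < c3 ∧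
    (add W r 2 r0 c1 = true ∧ add W r 2 r1 c3 = true ∧ add W r 2 r2 c0 = true ∧
      add W r 2 r3 c2 = true) := by
  unfold add
  decide +kernel

theorem P_cases {Q : Fin 4 → Fin 4 → Prop} (h : ∀ i j, P i j = true → Q i j) :
    Q 0 1 ∧ Q 1 3 ∧ Q 2 0 ∧ Q 3 2 :=
  ⟨h 0 1 rfl, h 1 3 rfl, h 2 0 rfl, h 3 2 rfl⟩

theorem P_of {Q : Fin 4 → Fin 4 → Prop} (h : Q 0 1 ∧ Q 1 3 ∧ Q 2 0 ∧ Q 3 2) :
    ∀ i j, P i j = true → Q i j := by
  obtain ⟨h1, h2, h3, h4⟩ := h
  intro i j hij
  fin_cases i <;> fin_cases j <;> first | exact absurd hij (by decide) | assumption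

theorem W_zero (j : Fin 5) : W 0 j = false := by
  revert j; decide

theorem W_two (i : Fin 7) : W i 2 = false := by
  revert i; decide

section
variable {m0 n : ℕ}

/-- the row of the witness corresponding to a row of the large matrix -/
def row (hm : 7 ≤ m0) (r : Fin m0) : Fin 7 := ⟨r - (m0 - 7), by have := r.2; omega⟩

/-- the column of the witness corresponding to a column of the large matrix -/
def col (hn : 5 ≤ n) (c : Fin n) : Fin 5 :=
  ⟨if (c : ℕ) < 2 then c else if (c : ℕ) + 3 ≤ n then 2 else c + 5 - n, by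
    have := c.2; split_ifs <;> omega⟩

/-- the large matrix -/
def big (hm : 7 ≤ m0) (hn : 5 ≤ n) : Mat m0 n := fun r c => W (row hm r) (col hn c)

theorem big_avoids (hm : 7 ≤ m0) (hn : 5 ≤ n) : ¬ Contains (big hm hn) P := by
  rintro ⟨f, g, hf, hg, h⟩
  obtain ⟨h1, h2, h3, h4⟩ := P_cases h
  unfold big at h1 h2 h3 h4
  have hr : ∀ r c, W (row hm r) c = true → m0 - 7 < (r : ℕ) := by
    intro r c hrc
    by_contra hcon
    have : row hm r = 0 := by
      apply Fin.ext; show (r : ℕ) - (m0 - 7) = 0; omega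
    rw [this, W_zero] at hrc
    exact Bool.noConfusion hrc
  have hc : ∀ r c, W r (col hn c) = true → (c : ℕ) < 2 ∨ n < (c : ℕ) + 3 := by
    intro r c hrc
    by_contra hcon
    have : col hn c = 2 := by
      apply Fin.ext
      show (if (c : ℕ) < 2 then (c : ℕ) else if (c : ℕ) + 3 ≤ n then 2 else c + 5 - n) = 2
      rw [if_neg (by omega), if_pos (by omega)]
    rw [this, W_two] at hrc
    exact Bool.noConfusion hrc
  have hrlt : ∀ r r' : Fin m0, r < r' → m0 - 7 < (r : ℕ) → row hm r < row hm r' := by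
    intro r r' h1 h2
    rw [Fin.lt_def] at h1 ⊢
    show (r : ℕ) - (m0 - 7) < (r' : ℕ) - (m0 - 7)
    omega
  have hclt : ∀ c c' : Fin n, c < c' → ((c : ℕ) < 2 ∨ n < (c : ℕ) + 3) →
      ((c' : ℕ) < 2 ∨ n < (c' : ℕ) + 3) → col hn c < col hn c' := by
    intro c c' h1 h2 h3
    rw [Fin.lt_def] at h1 ⊢
    show (if (c : ℕ) < 2 then (c : ℕ) else if (c : ℕ) + 3 ≤ n then 2 else c + 5 - n) <
      (if (c' : ℕ) < 2 then (c' : ℕ) else if (c' : ℕ) + 3 ≤ n then 2 else c' + 5 - n)
    split_ifs <;> omega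
  exact W_avoids _ _ (hrlt _ _ (hf (show (0 : Fin 4) < 1 by decide)) (hr _ _ h1))
    _ (hrlt _ _ (hf (show (1 : Fin 4) < 2 by decide)) (hr _ _ h2))
    _ (hrlt _ _ (hf (show (2 : Fin 4) < 3 by decide)) (hr _ _ h3))
    _ _ (hclt _ _ (hg (show (0 : Fin 4) < 1 by decide)) (hc _ _ h3) (hc _ _ h1))
    _ (hclt _ _ (hg (show (1 : Fin 4) < 2 by decide)) (hc _ _ h1) (hc _ _ h4))
    _ (hclt _ _ (hg (show (2 : Fin 4) < 3 by decide)) (hc _ _ h4) (hc _ _ h2))
    ⟨h1, h2, h3, h4⟩

theorem mono4 {m : ℕ} {a b c d : Fin m} (h1 : a < b) (h2 : b < c) (h3 : c < d) :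
    StrictMono ![a, b, c, d] := by
  rw [Fin.strictMono_iff_lt_succ]
  intro i
  fin_cases i
  · exact h1
  · exact h2
  · exact h3

theorem big_creates (hm : 7 ≤ m0) (hn : 5 ≤ n) (R : Fin m0) (c : Fin n) (h2 : 2 ≤ (c : ℕ))
    (h3 : (c : ℕ) + 3 ≤ n) {M : Mat m0 n} (hM : ∀ i j, big hm hn i j = true → M i j = true)
    (hRc : M R c = true) : Contains M P := by
  let rho : Fin 7 → Fin m0 := fun x =>
    ⟨if (x : ℕ) = 0 then min (R : ℕ) (m0 - 7) else x + (m0 - 7), by
      have := x.2; split_ifs <;> omega⟩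
  let kap : Fin 5 → Fin n := fun x =>
    ⟨if (x : ℕ) < 2 then x else if (x : ℕ) = 2 then c else x + (n - 5), by
      have := x.2; split_ifs <;> omega⟩
  have hrho : StrictMono rho := by
    intro a b hab
    rw [Fin.lt_def] at hab ⊢
    show (if (a : ℕ) = 0 then min (R : ℕ) (m0 - 7) else a + (m0 - 7)) <
      (if (b : ℕ) = 0 then min (R : ℕ) (m0 - 7) else b + (m0 - 7))
    split_ifs <;> omega
  have hkap : StrictMono kap := by
    intro a b hab
    rw [Fin.lt_def] at hab ⊢
    show (if (a : ℕ) < 2 then (a : ℕ) else if (a : ℕ) = 2 then (c : ℕ) else a + (n - 5)) <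
      (if (b : ℕ) < 2 then (b : ℕ) else if (b : ℕ) = 2 then (c : ℕ) else b + (n - 5))
    split_ifs <;> omega
  have e1 : ∀ x, row hm (rho x) = x := by
    intro x
    apply Fin.ext
    show (if (x : ℕ) = 0 then min (R : ℕ) (m0 - 7) else x + (m0 - 7)) - (m0 - 7) = x
    split_ifs <;> omega
  have e2 : ∀ x, col hn (kap x) = x := by
    intro x
    apply Fin.ext
    have hx := x.2
    show (if (if (x : ℕ) < 2 then (x : ℕ) else if (x : ℕ) = 2 then (c : ℕ) else x + (n - 5)) < 2
      then (if (x : ℕ) < 2 then (x : ℕ) else if (x : ℕ) = 2 then (c : ℕ) else x + (n - 5))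
      else if (if (x : ℕ) < 2 then (x : ℕ) else if (x : ℕ) = 2 then (c : ℕ) else x + (n - 5)) + 3
        ≤ n then 2
      else (if (x : ℕ) < 2 then (x : ℕ) else if (x : ℕ) = 2 then (c : ℕ) else x + (n - 5)) + 5 - n)
      = x
    split_ifs <;> omega
  have e3 : rho (row hm R) = R := by
    apply Fin.ext
    show (if (R : ℕ) - (m0 - 7) = 0 then min (R : ℕ) (m0 - 7) else (R : ℕ) - (m0 - 7) + (m0 - 7))
      = R
    split_ifs <;> omega
  have e4 : kap 2 = c := by
    apply Fin.ext
    show (if (2 : ℕ) < 2 then (2 : ℕ) else if (2 : ℕ) = 2 then (c : ℕ) else 2 + (n - 5)) = c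
    simp
  have key : ∀ x y, add W (row hm R) 2 x y = true → M (rho x) (kap y) = true := by
    intro x y hxy
    unfold add at hxy
    split_ifs at hxy with h
    · rw [h.1, h.2, e3, e4]; exact hRc
    · apply hM
      unfold big
      rw [e1, e2]
      exact hxy
  obtain ⟨r0, r1, a1, r2, a2, r3, a3, c0, c1, b1, c2, b2, c3, b3, k1, k2, k3, k4⟩ :=
    W_creates (row hm R)
  refine ⟨![rho r0, rho r1, rho r2, rho r3], ![kap c0, kap c1, kap c2, kap c3],
    mono4 (hrho a1) (hrho a2) (hrho a3), mono4 (hkap b1) (hkap b2) (hkap b3), ?_⟩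
  exact P_of ⟨key _ _ k1, key _ _ k2, key _ _ k3, key _ _ k4⟩

end

theorem upper {m0 : ℕ} (hm : 7 ≤ m0) (n : ℕ) : sat m0 n P ≤ 4 * m0 := by
  classical
  by_cases hn : n < 5
  · obtain ⟨M, hM, -⟩ := exists_saturated P (fun (_ : Fin m0) (_ : Fin n) => false)
      (not_contains_zero ⟨0, 1, rfl⟩)
    refine (sat_le hM).trans ?_
    have h1 : weight M ≤ (Finset.univ : Finset (Fin m0 × Fin n)).card := Finset.card_filter_le _ _
    rw [Finset.card_univ, Fintype.card_prod, Fintype.card_fin, Fintype.card_fin] at h1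
    nlinarith
  · have hn' : 5 ≤ n := by omega
    obtain ⟨M, hM, hM0⟩ := exists_saturated P (big hm hn') (big_avoids hm hn')
    refine (sat_le hM).trans ?_
    have h1 : weight M ≤ ((Finset.univ : Finset (Fin m0)) ×ˢ
        ({⟨0, by omega⟩, ⟨1, by omega⟩, ⟨n - 2, by omega⟩, ⟨n - 1, by omega⟩} :
          Finset (Fin n))).card := by
      apply Finset.card_le_card
      intro x hx
      rw [Finset.mem_filter] at hx
      rw [Finset.mem_product]
      refine ⟨Finset.mem_univ _, ?_⟩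
      by_contra hcon
      simp only [Finset.mem_insert, Finset.mem_singleton, Fin.ext_iff, not_or] at hcon
      have hx2 := x.2.2
      exact hM.1 (big_creates hm hn' x.1 x.2 (by omega) (by omega) hM0 hx.2)
    rw [Finset.card_product, Finset.card_univ, Fintype.card_fin] at h1
    have h2 := Finset.card_le_four (a := (⟨0, by omega⟩ : Fin n)) (b := ⟨1, by omega⟩)
      (c := ⟨n - 2, by omega⟩) (d := ⟨n - 1, by omega⟩)
    nlinarith

/-- Let `P` be the permutation matrix of `2413` and let `P' t` be obtained from it by inserting `t`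
empty rows between its first two rows. If `m₀ ≥ 7` and `t + 4 ≤ m₀ < 2 t + 4` then
`sat(m₀, n, P) ≤ 4 m₀` for all `n`, but `sat(m₀, n, P') ≥ n` for all `n`. In particular the
statement of Q1 is false (its second half fails, for every `m₀ ≥ 7`). -/
theorem result :
    (∀ t, IsInsertion P (P' t)) ∧
    (∀ m0 t : ℕ, 7 ≤ m0 → t + 4 ≤ m0 → m0 < 2 * t + 4 →
      ∀ n, sat m0 n P ≤ 4 * m0 ∧ n ≤ sat m0 n (P' t)) ∧
    (∀ m0 : ℕ, 7 ≤ m0 → ∃ (k' : ℕ) (Q : Mat k' 4), k' ≤ m0 ∧ IsInsertion P Q ∧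
      ∀ C N : ℕ, ∃ n ≥ N, C * sat m0 n P < sat m0 n Q) ∧
    ¬ (∀ (k l k' l' : ℕ) (Q : Mat k l) (Q' : Mat k' l'), IsPattern Q → IsInsertion Q Q' →
      (∃ C N : ℕ, ∀ n ≥ N, sat n n Q' ≤ C * sat n n Q) ∧
      (∀ m0 ≥ 1, ∃ C N : ℕ, ∀ n ≥ N, sat m0 n Q' ≤ C * sat m0 n Q)) := by
  have h1 : ∀ m0 t : ℕ, 7 ≤ m0 → t + 4 ≤ m0 → m0 < 2 * t + 4 →
      ∀ n, sat m0 n P ≤ 4 * m0 ∧ n ≤ sat m0 n (P' t) :=
    fun m0 t h1 h2 h3 n => ⟨upper h1 n, lower h2 h3 n⟩
  have h2 : ∀ m0 : ℕ, 7 ≤ m0 → ∃ (k' : ℕ) (Q : Mat k' 4), k' ≤ m0 ∧ IsInsertion P Q ∧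
      ∀ C N : ℕ, ∃ n ≥ N, C * sat m0 n P < sat m0 n Q := by
    intro m0 hm
    refine ⟨m0 - 4 + 4, P' (m0 - 4), by omega, isInsertion _, fun C N => ?_⟩
    refine ⟨max N (C * (4 * m0) + 1), le_max_left _ _, ?_⟩
    obtain ⟨h3, h4⟩ := h1 m0 (m0 - 4) hm (by omega) (by omega) (max N (C * (4 * m0) + 1))
    have h5 := Nat.mul_le_mul_left C h3
    have h6 := le_max_right N (C * (4 * m0) + 1)
    omega
  refine ⟨isInsertion, h1, h2, fun hall => ?_⟩
  obtain ⟨k', Q, hk, hQ, hCN⟩ := h2 7 le_rfl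
  obtain ⟨C, N, h⟩ := (hall 4 4 k' 4 P Q ⟨0, 1, rfl⟩ hQ).2 7 (by omega)
  obtain ⟨n, hn, hlt⟩ := hCN C N
  have := h n hn
  omega

end Pool.Agent.Results.MP_db54ba57_co.Disproof
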